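import Pool.Agent.R877.RN.Stm

/-! Project RN, piece PARA: `P_PINV`, `P_ACTP`. -/

namespace R877.RN
open Matrix Filter Topology

lemma par_iff_blockTriangular {n : ℕ} (a : Fin n → ℝ) (R : Mat n) :
    Par a R ↔ R.BlockTriangular (fun i => OrderDual.toDual (a i)) := by
  constructor
  · intro h i j hij
    have hij' : a i < a j := OrderDual.toDual_lt_toDual.mp hij
    by_contra h0
    exact absurd (h i j h0) (not_le.mpr hij')
  · intro h i j h0
    by_contra hlt
    exact h0 (h (OrderDual.toDual_lt_toDual.mpr (not_le.mp hlt)))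

theorem p_PINV : P_PINV := by
  intro n a R hR h
  rw [par_iff_blockTriangular] at h ⊢
  letI : Invertible R := Matrix.invertibleOfIsUnitDet R hR
  exact Matrix.blockTriangular_inv_of_blockTriangular h

theorem p_ACTP : P_ACTP := by
  intro n a R ν hR h hν i j k hne
  have hinv := p_PINV n a R hR h
  unfold act at hne
  obtain ⟨p, -, hp⟩ := Finset.exists_ne_zero_of_sum_ne_zero hne
  obtain ⟨q, -, hq⟩ := Finset.exists_ne_zero_of_sum_ne_zero hp
  obtain ⟨r, -, hr⟩ := Finset.exists_ne_zero_of_sum_ne_zero hq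
  have h1 : R k r ≠ 0 := fun h0 => hr (by rw [h0]; ring)
  have h2 : ν p q r ≠ 0 := fun h0 => hr (by rw [h0]; ring)
  have h3 : R⁻¹ p i ≠ 0 := fun h0 => hr (by rw [h0]; ring)
  have h4 : R⁻¹ q j ≠ 0 := fun h0 => hr (by rw [h0]; ring)
  have e1 := h k r h1
  have e2 := hν p q r h2
  have e3 := hinv p i h3
  have e4 := hinv q j h4
  linarith

end R877.RN
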